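import Pool.Agent.H78.GX.H21.GS3.PREb

/-!
# Theorem (G), section 3a, group E: almost all sheets lie at fractions with small denominators
-/

set_option autoImplicit false

open Finset Pool.Agent.H6.N4D Pool.Agent.H78.GX.H6.N4D Pool.Agent.H78.GX Pool.Agent.H78.GX.H78.GS

namespace Pool.Agent.H78.GX.H21.GS3

/-- the precision over the lower point -/
lemma prec (S : Par) (e₁ ν : ℝ) (N : ℕ) (t : ℤ) (he₁ : 0 < e₁) (hν : 0 < ν) (hr : 0 < S.rho)
    (hP : 100 ≤ S.P) (hPν : 2 / (ν * e₁) ≤ S.P) (hN : 5 * S.L ≤ N * S.h) :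
    2 * (S.P ^ 3 / (S.rho * S.x (t + N))) ≤ ν * e₁ / (S.rho * S.x t) := by
  have hx : 0 < S.x t := Par.x_pos t
  have hrx : 0 < S.rho * S.x t := mul_pos hr hx
  have hP0 : 0 < S.P := by linarith
  have h1 : S.x (t + (N : ℤ)) = S.x t * Real.exp (S.h * N) := by
    rw [Par.x_add]; push_cast; rfl
  have h2 : S.P ^ 5 ≤ Real.exp (S.h * N) := by
    rw [Par.P_pow]
    apply Real.exp_le_exp.2
    push_cast
    linarith
  have h3 : 2 * S.P ^ 3 ≤ ν * e₁ * Real.exp (S.h * N) := by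
    have hνe : 0 < ν * e₁ := mul_pos hν he₁
    have h4 : 2 ≤ ν * e₁ * S.P := by
      rw [div_le_iff₀ hνe] at hPν
      linarith
    calc 2 * S.P ^ 3 ≤ ν * e₁ * S.P * S.P ^ 3 := by gcongr
      _ = ν * e₁ * S.P ^ 4 := by ring
      _ ≤ ν * e₁ * S.P ^ 5 := by
        gcongr
        · linarith
        · norm_num
      _ ≤ ν * e₁ * Real.exp (S.h * N) := by gcongr
  rw [h1]
  have hE : 0 < Real.exp (S.h * N) := Real.exp_pos _
  have e1 : 2 * (S.P ^ 3 / (S.rho * (S.x t * Real.exp (S.h * N)))) =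
      (2 * S.P ^ 3) / Real.exp (S.h * N) / (S.rho * S.x t) := by
    field_simp
  rw [e1]
  apply div_le_div_of_nonneg_right _ hrx.le
  rw [div_le_iff₀ hE]
  exact h3

theorem pf_PRE (hRAT : Pool.Agent.H78.GX.H83.GS.T_RAT) (hWTS : T_WTS) (hSIZ : T_SIZ) : T_PRE := by
  intro r₀ hr₀
  obtain ⟨b₀, XR, hb₀, hR⟩ := hRAT r₀ hr₀
  refine ⟨b₀, 100, hb₀, by norm_num, ?_⟩
  intro K e₁ ν hK he₁ he₁' hν hν'
  obtain ⟨XS, hS⟩ := hSIZ
  obtain ⟨⟨X1, hW1⟩, hW2, -⟩ := hWTS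
  obtain ⟨X2, hW2⟩ := hW2 2 (by norm_num)
  obtain ⟨X3, hX3⟩ := LL_large (2 / (ν * e₁))
  refine ⟨max XR (max XS (max X1 (max X2 X3))), ?_⟩
  intro S Δ s N e e₀ κ κ' T F θ φ hSK hX ctx he he0 hT hN1 hN2 hHT
  have hXR : XR ≤ S.X := (le_max_left _ _).trans hX
  have hX' := (le_max_right _ _).trans hX
  have hXS : XS ≤ S.X := (le_max_left _ _).trans hX'
  have hX'' := (le_max_right _ _).trans hX'
  have hXX1 : X1 ≤ S.X := (le_max_left _ _).trans hX''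
  have hX''' := (le_max_right _ _).trans hX''
  have hXX2 : X2 ≤ S.X := (le_max_left _ _).trans hX'''
  have hXX3 : X3 ≤ S.X := (le_max_right _ _).trans hX'''
  obtain ⟨hL, hP, -, hrho, hh4, -, -, -, hI, hl, -, hN0, -⟩ := hS S ctx.ok hXS
  obtain ⟨-, -, -, -, -, -, -, -, hI2, -, -, hN02, -⟩ := hS (cut S Δ) ctx.ok2 hXS
  have hh : 0 < S.h := ctx.ok.hh
  have hr : 0 < S.rho := ctx.ok.hr0
  have hr1 : S.rho ≤ 1 := by linarith
  have hh8 : S.h ≤ 1 / 10 := by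
    have : S.rho ^ 4 ≤ S.rho ^ 1 := pow_le_pow_of_le_one hr.le hr1 (by norm_num)
    rw [pow_one] at this
    linarith
  have hK0 : (200 : ℝ) ≤ K := by exact_mod_cast hK
  have hSK' : (S.K : ℝ) = K := by rw [hSK]
  have hΔ : 0 ≤ Δ := by
    have h1 := ctx.d1
    by_contra hc
    push Not at hc
    have : (Δ : ℝ) < 0 := by exact_mod_cast hc
    have h2 := mul_neg_of_neg_of_pos this hh
    linarith
  -- sizes
  have hNb : S.N ≤ 2 * (cut S Δ).N := by
    have h1 := ctx.ok.hI2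
    have h2 : 12 * (S.K : ℝ) * S.L ≤ (cut S Δ).N * S.h := ctx.ok2.hI1
    have h3 : S.N * S.h ≤ 2 * (cut S Δ).N * S.h := by
      have h4 : (0 : ℝ) ≤ S.K * S.L := by positivity
      linarith
    exact le_of_mul_le_mul_right h3 hh
  have hNN : (N : ℝ) ≤ 2 / K * (cut S Δ).N := by
    have h1 : (N : ℝ) * S.h ≤ 13 * S.L := by
      have : (N : ℝ) ≤ Δ := by exact_mod_cast hN2
      calc (N : ℝ) * S.h ≤ Δ * S.h := by gcongr
        _ ≤ _ := ctx.d2
    have h2 : 12 * (K : ℝ) * S.L ≤ (cut S Δ).N * S.h := by rw [← hSK']; exact ctx.ok2.hI1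
    have h3 : (N : ℝ) * S.h ≤ 2 / K * (cut S Δ).N * S.h := by
      have h4 : 2 / (K : ℝ) * (12 * K * S.L) ≤ 2 / K * ((cut S Δ).N * S.h) := by gcongr
      have h5 : 2 / (K : ℝ) * (12 * K * S.L) = 24 * S.L := by
        have : (K : ℝ) ≠ 0 := by positivity
        field_simp
        norm_num
      rw [h5] at h4
      rw [mul_assoc]
      linarith
    exact le_of_mul_le_mul_right h3 hh
  have hκ : 0 ≤ κ := by
    have h1 := (Par.cnt_nonneg (S := S) _).trans ctx.rk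
    by_contra hc
    push Not at hc
    have h2 := mul_neg_of_neg_of_pos hc hN0
    linarith
  have hHA : ∀ D : ℕ, D ≤ N → (cut S Δ).cnt (fun t => ¬ HA S (ν * e₁) θ F T D t) ≤
      κ' * (cut S Δ).N := fun D hD => HA_cnt S Δ e₁ κ' ν T N D θ F he₁ hr hHT hD
  have hκ' : 0 ≤ κ' := by
    have h1 := (Par.cnt_nonneg (S := cut S Δ) _).trans (hHA 0 (Nat.zero_le _))
    by_contra hc
    push Not at hc
    have h2 := mul_neg_of_neg_of_pos hc hN02
    linarith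
  -- the distance `m`
  set m : ℕ := ⌊5 / 2 * S.L / S.h⌋₊ with hm
  have hm1 : S.h * m ≤ 5 / 2 * S.L := by
    have := Nat.floor_le (show 0 ≤ 5 / 2 * S.L / S.h by positivity)
    rw [le_div_iff₀ hh] at this
    rw [mul_comm]; exact this
  have hm2 : 5 / 2 * S.L - S.h < S.h * m := by
    have := Nat.lt_floor_add_one (5 / 2 * S.L / S.h)
    rw [div_lt_iff₀ hh] at this
    rw [← hm] at this
    linarith
  have hmN : m ≤ N := by
    have h1 : (m : ℝ) * S.h ≤ N * S.h := by linarith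
    exact_mod_cast le_of_mul_le_mul_right h1 hh
  -- the shifts of the primes
  have hq : ∀ q ∈ Pr S.P (S.P ^ 2), 1 ≤ q ∧ |-S.l q| ≤ Δ ∧ ∃ D : ℕ, (D : ℤ) = m - S.l q ∧
      D ≤ N := by
    intro q hq
    rw [mem_Pr (by positivity)] at hq
    have hq1 : 1 ≤ q := hq.2.2.one_lt.le
    have hlq := abs_le.1 (hl q hq1)
    have h1 : S.L ≤ Real.log q := by
      rw [← Par.log_P]
      exact Real.log_le_log (by linarith) hq.1.le
    have h2 : Real.log q ≤ 2 * S.L := by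
      have : Real.log q ≤ Real.log (S.P ^ 2) :=
        Real.log_le_log (by exact_mod_cast hq1) hq.2.1
      rw [Real.log_pow, Par.log_P] at this
      exact_mod_cast this
    have h3 : 0 ≤ S.l q := by
      by_contra hc
      push Not at hc
      have : (S.l q : ℝ) < 0 := by exact_mod_cast hc
      have h9 := mul_neg_of_pos_of_neg hh this
      linarith
    have h4 : S.l q ≤ Δ := by
      have h5 : (S.l q : ℝ) * S.h ≤ Δ * S.h := by linarith [ctx.d1]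
      exact_mod_cast le_of_mul_le_mul_right h5 hh
    have h6 : S.l q ≤ m := by
      have h5 : (S.l q : ℝ) * S.h ≤ m * S.h := by linarith
      exact_mod_cast le_of_mul_le_mul_right h5 hh
    refine ⟨hq1, ?_, ((m : ℤ) - S.l q).toNat, ?_, ?_⟩
    · rw [abs_neg, abs_of_nonneg h3]; exact h4
    · exact Int.toNat_of_nonneg (by omega)
    · have h7 : (m : ℤ) - S.l q ≤ N := by omega
      omega
  have hνe : ν * e₁ < 1 / 2 := by
    have : ν * e₁ ≤ 1 / 100 * (1 / 16) := mul_le_mul hν' he₁' he₁.le (by norm_num)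
    linarith
  -- the good points
  set Co : ℤ → Prop := fun t => ∀ j ∈ F t, ∃ b a : ℕ, 1 ≤ b ∧ b ≤ b₀ ∧
    nd (fh S θ T t j - (a : ℝ) / b) ≤ 2 * (S.P ^ 3 / (S.rho * S.x t)) with hCo
  set B : ℕ → ℤ → Prop := fun q t =>
    (t - S.l q ∈ S.I ∧ ¬ Bij (RE S e₀ θ φ q t) (F t) (F (t - S.l q))) ∨
    ((t + (-(m : ℤ)) ∈ (cut S Δ).I ∧
      ∃ D : ℕ, (D : ℤ) = m - S.l q ∧ ¬ HA S (ν * e₁) θ F T D (t + (-(m : ℤ)))) ∨
    ((t + (-(m : ℤ)) ∈ (cut S Δ).I ∧ (F (t + (-(m : ℤ)))).card ≠ s) ∨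
      (F (t + (-S.l q))).card ≠ s)) with hB
  have hG : (cut S Δ).cnt (fun t => t - m ∈ (cut S Δ).I ∧ ¬ Co t) ≤
      8 * ∑ q ∈ Pr S.P (S.P ^ 2), 1 / (q : ℝ) * (cut S Δ).cnt (B q) := by
    refine markov (cut S Δ) (Pr S.P (S.P ^ 2)) (fun q => 1 / (q : ℝ)) B _
      (fun q _ => by positivity) ?_
    rintro t ht ⟨htm, hCt⟩ A' hA' hbad
    by_contra hlt
    push Not at hlt
    apply hCt
    have hW := hW1 S.X hXX1
    have hsplit : ∑ q ∈ Pr S.P (S.P ^ 2) \ A', 1 / (q : ℝ) + ∑ q ∈ A', 1 / (q : ℝ) =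
        ∑ q ∈ Pr S.P (S.P ^ 2), 1 / (q : ℝ) := Finset.sum_sdiff hA'
    have hgood : 1 / 8 ≤ ∑ q ∈ Pr S.P (S.P ^ 2) \ A', 1 / (q : ℝ) := by
      have h1 : (1 / 4 : ℝ) ≤ ∑ q ∈ Pr S.P (S.P ^ 2), 1 / (q : ℝ) := hW
      linarith
    have htI := (cut_mem S Δ).1 ht
    have htmI := (cut_mem S Δ).1 htm
    have htS : t ∈ S.I := by rw [Par.mem_I]; omega
    have htmS : t - m ∈ S.I := by rw [Par.mem_I]; omega
    refine point S r₀ b₀ s m e₀ e₁ (ν * e₁) T F θ φ t (Pr S.P (S.P ^ 2) \ A')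
      (hR S.X hXR) ctx.sub hr hr1 hh hh4 hl he0 (by linarith) hT hP ?_ (by linarith)
      (by positivity) hνe sdiff_subset hgood (ctx.sep _ htmS) ?_
    · refine le_trans ?_ (hI t htS).1
      apply pow_le_pow_right₀ (by linarith)
      rw [hSK]; omega
    · intro q hqA
      rw [mem_sdiff] at hqA
      obtain ⟨hq1, hq2, D, hD, hDN⟩ := hq q hqA.1
      have hnb : ¬ B q t := fun hb => hqA.2 (hbad q hqA.1 hb)
      rw [hB] at hnb
      push Not at hnb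
      obtain ⟨n1, n2, n3, n4⟩ := hnb
      have e1 : t + (-(m : ℤ)) = t - m := by ring
      have e2 : t + (-S.l q) = t - S.l q := by ring
      rw [e1] at n2 n3
      rw [e2] at n4
      have hq2' := abs_le.1 hq2
      have htl : t - S.l q ∈ S.I := by
        rw [Par.mem_I]; omega
      have hbij := n1 htl
      refine ⟨fun j hj => ?_, D, by rw [hD]; ring, n2 htm D hD, n3 htm, n4⟩
      obtain ⟨i, ⟨hi1, hi2⟩, -⟩ := hbij.1 j hj
      exact ⟨i, hi1, hi2⟩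
  -- the count for one prime
  have hcq : ∀ q ∈ Pr S.P (S.P ^ 2), (cut S Δ).cnt (B q) ≤
      S.cnt (fun t => t - S.l q ∈ S.I ∧ ¬ Bij (RE S e₀ θ φ q t) (F t) (F (t - S.l q))) +
        (κ' + 4 * κ) * (cut S Δ).N := by
    intro q hqq
    obtain ⟨hq1, hq2, D, hD, hDN⟩ := hq q hqq
    refine (Par.cnt_or _ _).trans ?_
    have h1 := cut_cnt S Δ hΔ (fun t => t - S.l q ∈ S.I ∧
      ¬ Bij (RE S e₀ θ φ q t) (F t) (F (t - S.l q)))
    have h2 : (cut S Δ).cnt (fun t => t + (-(m : ℤ)) ∈ (cut S Δ).I ∧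
        ∃ D : ℕ, (D : ℤ) = m - S.l q ∧ ¬ HA S (ν * e₁) θ F T D (t + (-(m : ℤ)))) ≤
        κ' * (cut S Δ).N := by
      refine le_trans ?_ (hHA D hDN)
      refine le_trans ?_ (Par.cnt_shift (fun t => ¬ HA S (ν * e₁) θ F T D t) (-(m : ℤ)))
      refine Par.cnt_mono fun t _ h => ⟨h.1, ?_⟩
      obtain ⟨D', hD', hn⟩ := h.2
      have : D' = D := by
        have : (D' : ℤ) = D := by rw [hD', hD]
        exact_mod_cast this
      rwa [this] at hn
    have h3 : (cut S Δ).cnt (fun t => t + (-(m : ℤ)) ∈ (cut S Δ).I ∧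
        (F (t + (-(m : ℤ)))).card ≠ s) ≤ κ * S.N :=
      (Par.cnt_shift (fun t => (F t).card ≠ s) (-(m : ℤ))).trans
        ((cut_cnt S Δ hΔ _).trans ctx.rk)
    have h4 : (cut S Δ).cnt (fun t => (F (t + (-S.l q))).card ≠ s) ≤ κ * S.N :=
      (cut_cnt_shift S Δ (-S.l q) hΔ hq2 (fun t => (F t).card ≠ s)).trans ctx.rk
    have h5 := Par.cnt_or (S := cut S Δ)
      (fun t => t + (-(m : ℤ)) ∈ (cut S Δ).I ∧
        ∃ D : ℕ, (D : ℤ) = m - S.l q ∧ ¬ HA S (ν * e₁) θ F T D (t + (-(m : ℤ))))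
      (fun t => (t + (-(m : ℤ)) ∈ (cut S Δ).I ∧ (F (t + (-(m : ℤ)))).card ≠ s) ∨
        (F (t + (-S.l q))).card ≠ s)
    have h6 := Par.cnt_or (S := cut S Δ)
      (fun t => t + (-(m : ℤ)) ∈ (cut S Δ).I ∧ (F (t + (-(m : ℤ)))).card ≠ s)
      (fun t => (F (t + (-S.l q))).card ≠ s)
    have h7 : κ * S.N ≤ 2 * κ * (cut S Δ).N := by
      have := mul_le_mul_of_nonneg_left hNb hκ
      linarith
    linarith
  -- the sum over the primes
  have hsum : ∑ q ∈ Pr S.P (S.P ^ 2), 1 / (q : ℝ) * (cut S Δ).cnt (B q) ≤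
      (2 / K + 2 * (κ' + 4 * κ)) * (cut S Δ).N := by
    have h1 : ∑ q ∈ Pr S.P (S.P ^ 2), 1 / (q : ℝ) * (cut S Δ).cnt (B q) ≤
        ∑ q ∈ Pr S.P (S.P ^ 2), (1 / (q : ℝ) * S.cnt (fun t => t - S.l q ∈ S.I ∧
          ¬ Bij (RE S e₀ θ φ q t) (F t) (F (t - S.l q))) +
          1 / (q : ℝ) * ((κ' + 4 * κ) * (cut S Δ).N)) := by
      refine sum_le_sum fun q hqq => ?_
      rw [← mul_add]
      exact mul_le_mul_of_nonneg_left (hcq q hqq) (by positivity)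
    rw [sum_add_distrib, ← sum_mul] at h1
    have h2 : ∑ q ∈ Pr S.P (S.P ^ 2), 1 / (q : ℝ) * S.cnt (fun t => t - S.l q ∈ S.I ∧
          ¬ Bij (RE S e₀ θ φ q t) (F t) (F (t - S.l q))) ≤ e * S.N := by
      refine le_trans ?_ ctx.inv.pr
      refine sum_le_sum_of_subset_of_nonneg ?_ fun q _ _ => mul_nonneg (by positivity)
        (Par.cnt_nonneg _)
      intro q hqq
      rw [mem_Pr (by positivity)] at hqq
      unfold Par.Q
      rw [mem_Pr (by positivity)]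
      refine ⟨hqq.1, hqq.2.1.trans ?_, hqq.2.2⟩
      exact pow_le_pow_right₀ (by linarith) (by rw [hSK]; omega)
    have h3 : ∑ q ∈ Pr S.P (S.P ^ 2), 1 / (q : ℝ) ≤ 2 := by
      have := hW2 S.X hXX2
      exact_mod_cast this
    have h4 : e * S.N ≤ 2 / K * (cut S Δ).N := by
      calc e * S.N ≤ 1 / K * S.N := by gcongr
        _ ≤ 1 / K * (2 * (cut S Δ).N) := by gcongr
        _ = 2 / K * (cut S Δ).N := by ring
    have h5 : (∑ q ∈ Pr S.P (S.P ^ 2), 1 / (q : ℝ)) * ((κ' + 4 * κ) * (cut S Δ).N) ≤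
        2 * ((κ' + 4 * κ) * (cut S Δ).N) := by
      apply mul_le_mul_of_nonneg_right h3
      positivity
    linarith
  -- the conclusion
  have hE : (cut S Δ).cnt (fun t => ∃ j ∈ F t, ∀ b a : ℕ, 1 ≤ b → b ≤ b₀ →
        ¬ At S e₁ (2 * ν) θ T b a t j) ≤
      (cut S Δ).cnt (fun t => t + (N : ℤ) ∉ (cut S Δ).I) +
        ((cut S Δ).cnt (fun t => ¬ HA S (ν * e₁) θ F T N t) +
          (cut S Δ).cnt (fun t => t + (N : ℤ) ∈ (cut S Δ).I ∧
            (t + (N : ℤ) - m ∈ (cut S Δ).I ∧ ¬ Co (t + N)))) := by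
    refine le_trans (Par.cnt_le_add (G := fun t => ¬ HA S (ν * e₁) θ F T N t ∨
      (t + (N : ℤ) ∈ (cut S Δ).I ∧ (t + (N : ℤ) - m ∈ (cut S Δ).I ∧ ¬ Co (t + N))))
      fun t ht hE => ?_) (add_le_add le_rfl (Par.cnt_or _ _))
    by_contra hc
    push Not at hc
    obtain ⟨c1, c2, c3⟩ := hc
    have htI := (cut_mem S Δ).1 ht
    have htN := (cut_mem S Δ).1 c1
    have hCt : Co (t + N) := by
      apply c3 c1
      rw [cut_mem]
      have : (m : ℤ) ≤ N := by exact_mod_cast hmN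
      omega
    obtain ⟨j, hj, hno⟩ := hE
    obtain ⟨i, hi, hnd⟩ := c2 j hj
    obtain ⟨b, a, hb1, hb2, hab⟩ := hCt i hi
    apply hno b a hb1 hb2
    unfold At
    have hPν : 2 / (ν * e₁) ≤ S.P := by
      have h1 := hX3 S.X hXX3
      have h2 : S.L ≤ S.P := by
        have := Real.add_one_le_exp S.L
        show S.L ≤ Real.exp S.L
        linarith
      exact h1.trans h2
    have hpr := prec S e₁ ν N t he₁ hν hr hP hPν hN1
    calc nd (fh S θ T t j - (a : ℝ) / b) ≤ nd (fh S θ T t j - fh S θ T (t + N) i) +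
          nd (fh S θ T (t + N) i - (a : ℝ) / b) := nd_tri _ _ _
      _ ≤ ν * e₁ / (S.rho * S.x t) + ν * e₁ / (S.rho * S.x t) := by
          rw [nd_sub_comm]
          exact add_le_add hnd (hab.trans hpr)
      _ = 2 * ν * e₁ / (S.rho * S.x t) := by ring
  have hE1 : (cut S Δ).cnt (fun t => t + (N : ℤ) ∉ (cut S Δ).I) ≤ 2 / K * (cut S Δ).N := by
    refine (Par.cnt_out (N : ℤ)).trans ?_
    rw [Int.cast_natCast, abs_of_nonneg (Nat.cast_nonneg _)]
    exact hNN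
  have hE3 : (cut S Δ).cnt (fun t => t + (N : ℤ) ∈ (cut S Δ).I ∧
      (t + (N : ℤ) - m ∈ (cut S Δ).I ∧ ¬ Co (t + N))) ≤
      8 * ((2 / K + 2 * (κ' + 4 * κ)) * (cut S Δ).N) := by
    refine (Par.cnt_shift (S := cut S Δ) (fun t => t - m ∈ (cut S Δ).I ∧ ¬ Co t) (N : ℤ)).trans ?_
    refine hG.trans ?_
    linarith
  have hE2 := hHA N le_rfl
  have hfin : 2 / (K : ℝ) * (cut S Δ).N + (κ' * (cut S Δ).N +
      8 * ((2 / K + 2 * (κ' + 4 * κ)) * (cut S Δ).N)) ≤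
      100 * (κ + κ' + 1 / K) * (cut S Δ).N := by
    have h1 : (0 : ℝ) ≤ 1 / K := by positivity
    have h2 : 2 / (K : ℝ) = 2 * (1 / K) := by ring
    rw [h2]
    linarith [mul_nonneg hκ hN02.le, mul_nonneg hκ' hN02.le, mul_nonneg h1 hN02.le]
  linarith

end Pool.Agent.H78.GX.H21.GS3
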